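import Pool.Agent.Lib_helper77.CP.Main

/-!
# Almost every graph is locally determined by its chromatic polynomial alone

For almost every `G` in `G(n, 1/2)`: different graphs on the vertex set of `G` at edit distance at most
`(1/400) √(log₂ n)` from `G` have different chromatic polynomials. In particular, for every fixed `r`, for almost every
`G` no other graph that arises from `G` by adding and deleting at most `r` edges has the same chromatic polynomial as
`G`, and no two such graphs have the same chromatic polynomial. The same holds for the graphs that arise from `G` by
arbitrary changes inside a vertex set `U` (which may depend on `G`) with `160000 |U|² ≤ log₂ n`.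

`G(n, 1/2)` is the uniform distribution on the simple graphs on `Fin n`, so the probability of a property is the number
of graphs with the property divided by the number of graphs. The definitions (Pool/Agent/Lib_helper77/CP/Defs.lean):

* `numCol G k`: the number of proper colourings of `G` with `k` colours, which is `π_G^{(K_1)}(k)`;
* `SameChrom G G'`: `numCol G k = numCol G' k` for all `k`;
* `ChangedIn U G G'`: `G` and `G'` have the same adjacencies for all pairs that do not lie inside `U`;
* `editDist G G'`: the number of edges of exactly one of `G`, `G'`;
* `LocDet C G`: (`inside`) if `C |U|² ≤ ⌊log₂ n⌋`, `ChangedIn U G G₁`, `ChangedIn U G G₂` and `SameChrom G₁ G₂`, then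
  `G₁ = G₂`; (`near`) if `C (editDist G G₁)² ≤ ⌊log₂ n⌋`, `C (editDist G G₂)² ≤ ⌊log₂ n⌋` and `SameChrom G₁ G₂`, then
  `G₁ = G₂`.

The proof. Put `Z_G(X) = X^n π_G(1/X) = ∑_A (-1)^{|A|} X^{rk A}` (the sum over the sets `A` of edges) and
`X Z_G'(X) / Z_G(X) = ∑_j lam_j(G) X^j`; the integers `lam_j(G)` depend only on the chromatic polynomial. As a function
of the edge set, `lam_j(G) = ∑_S lh_j(S)`, the sum over the sets `S` of edges of `G`, where `lh_j(S) = 0` unless `S` is
connected with at most `j + 1` vertices, and `lh_j(S) = ± j` if `S` is a complete graph with `j + 1` vertices. Fix `U`
and two different graphs `α`, `β` on `U`, and let `T` be the random set of the edges not inside `U`. For `3 ≤ j` the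
difference `lam_j(T ∪ β) - lam_j(T ∪ α)` is a polynomial in the indicators of the edges in `T`; it contains monomials
for every set of `j - 1` vertices outside `U` which use all pairs of these vertices (it has none with more vertices
outside `U`). Cauchy-Schwarz inequalities over the pairs of vertices in many disjoint copies of such a set remove all
other monomials and the differences with smaller `j`, and bound the exponential sums modulo a prime `m` of size
`n^{1/4}` for all non-trivial combinations of the `K = 8 |U| + 8` differences with `j = 3, ..., K + 2`. So they all
vanish with probability at most `m^{-K}` plus a tiny error, which beats the number of choices of `U`, `α`, `β`.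
-/

set_option autoImplicit false

open Filter Topology Pool.Agent.Lib_helper77.CP

namespace Pool.Agent.Results.MP_8a986b_co.ChromaticLocal

theorem result :
    Tendsto (fun n : ℕ => (Nat.card {G : SimpleGraph (Fin n) // LocDet 160000 G} : ℝ) /
      Nat.card (SimpleGraph (Fin n))) atTop (𝓝 1) :=
  local_chromatic

end Pool.Agent.Results.MP_8a986b_co.ChromaticLocal
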