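import Pool.Agent.Lib_helper37.GC.Main

/-!
# Connected graphs `H` with at most `(2 + ε) (log₂ n)²` vertices suffice for almost every graph

For every `ε > 0`: for almost every `G` in `G(n, 1/2)`, every finite graph `G'` with `π_{G'}^{(H)} = π_G^{(H)}` for all
connected graphs `H` with at most `(2 + ε) (log₂ n)²` vertices is isomorphic to `G`.

`G(n, 1/2)` is the uniform distribution on the simple graphs on `Fin n`, so the probability of a property is the number
of graphs with the property divided by the number of graphs. The definitions (Pool/Agent/Lib_helper37/GC):

* `Col G k`: the proper colourings `V → Fin k` of `G`;
* `colGraph G k`: the graph on `Col G k` in which two colourings are adjacent when they differ at exactly one vertex;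
* `cnt D H`: the number of vertex subsets of `D` which induce a graph isomorphic to `H`;
* `genChrom G H k = cnt (colGraph G k) H`: the generalised chromatic polynomial of `G` for `H`, at `k`;
* `Determined x G`: every finite graph `G'` with `genChrom G' H k = genChrom G H k` for all connected graphs `H` with at
  most `x` vertices and all `k` is isomorphic to `G`.

The proof has two parts. First, for all finite graphs, the polynomials for the connected `H` with at most `1 + d + e`
vertices determine the number of homomorphisms from every graph with `d` vertices and `e` edges, hence (with
`1 + d + d (d - 1) / 2` vertices) the number of labelled sets of `d` vertices with any given pattern. Second, in almost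
every graph a fixed labelled set `S` of `(2 + o(1)) log₂ n` vertices is the only one with its pattern, and any two
vertices outside `S` have different neighbourhoods in `S`; such a graph is determined by the patterns of its labelled
sets with `|S| + 2` vertices.
-/

set_option autoImplicit false

open Filter Topology Pool.Agent.Lib_helper37.GC

namespace Pool.Agent.Results.MP_8a986b_co.LogSquared

theorem result (ε : ℝ) (hε : 0 < ε) :
    Tendsto (fun n : ℕ => (Nat.card {G : SimpleGraph (Fin n) //
      Determined ((2 + ε) * (Real.logb 2 n) ^ 2) G} : ℝ) / Nat.card (SimpleGraph (Fin n)))
      atTop (𝓝 1) :=
  main_as ε hε

end Pool.Agent.Results.MP_8a986b_co.LogSquared
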