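import Pool.Agent.Lib_helper37.GC.FinalC

/-!
# Almost every graph is distinguished from the graphs at edit distance `r` by the connected `H` with `O(r²)` vertices

For almost every `G` in `G(n, 1/2)`: every graph `G'` on the same vertex set with `π_{G'}^{(H)} = π_G^{(H)}` for all
connected graphs `H` with at most `10⁷ min(r, log₂ n)²` vertices, where `r = |E(G) △ E(G')|`, is isomorphic to `G`.

In particular, for every fixed `r` there is a fixed finite family of graphs `H` (the connected graphs with at most
`10⁷ r²` vertices) such that for almost every `G` no graph which is not isomorphic to `G` and is obtained from `G` by
adding or deleting at most `r` edges has the same polynomials as `G` for the family.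

`G(n, 1/2)` is the uniform distribution on the simple graphs on `Fin n`, so the probability of a property is the number
of graphs with the property divided by the number of graphs. The definitions (Pool/Agent/Lib_helper37/GC):

* `Col G k`: the proper colourings `V → Fin k` of `G`;
* `colGraph G k`: the graph on `Col G k` in which two colourings are adjacent when they differ at exactly one vertex;
* `cnt D H`: the number of vertex subsets of `D` which induce a graph isomorphic to `H`;
* `genChrom G H k = cnt (colGraph G k) H`: the generalised chromatic polynomial of `G` for `H`, at `k`;
* `NearDetermined C G`: every graph `G'` on `Fin n` with `genChrom G' H k = genChrom G H k` for all `k` and all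
  connected graphs `H` with at most `C min(|E(G) △ E(G')|, log₂ n)²` vertices is isomorphic to `G`.

The proof: the polynomials for the connected `H` with at most `1 + d + e` vertices determine the number of homomorphisms
from every graph with `d` vertices and `e` edges, in particular sums over the vertices of polynomials in the power sums
`p_i(x) = ∑_{y ~ x} d(y)^i`. For fixed flipped pairs `D` the equality of these sums for `G` and `G △ D` determines
`p_J(x₀)` for a vertex `x₀` of `D` and all `J` in a long interval from the other data near `D`; the neighbours of `x₀`
outside are random, and few sets have given power sums, which gives a probability small enough for a union bound over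
`D`.
-/

set_option autoImplicit false

open Filter Topology Pool.Agent.Lib_helper37.GC

namespace Pool.Agent.Results.MP_8a986b_co.NearbyGraphs

theorem result :
    Tendsto (fun n : ℕ => (Nat.card {G : SimpleGraph (Fin n) // NearDetermined 10000000 G} : ℝ) /
      Nat.card (SimpleGraph (Fin n))) atTop (𝓝 1) :=
  main_near

end Pool.Agent.Results.MP_8a986b_co.NearbyGraphs
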